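import Pool.Agent.Lib.MP_a437dc_al.Counter

open Pool.Agent.Lib.MP_a437dc_al

theorem Pool.Agent.Results.MP_a437dc_al.NotCondFlat.result :
    Nonempty Rationalization ∧ ∀ L : Rationalization, ¬ L.ConditionallyFlat :=
  ⟨nonempty_rationalization, not_conditionallyFlat⟩
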